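import Pool.Agent.Y271.RO.Stm

/-!
# Project RO, part VEC: the vectors of case A
-/

set_option autoImplicit false

namespace Pool.Agent.Y914.RO.VEC

open MeasureTheory Set Metric Filter Topology
open scoped InnerProductSpace ENNReal NNReal ComplexConjugate ContDiff
open Pool.Agent.Y283.NK (ct IsMul HasHyp)
open Pool.Agent.Y271.RO

/-- functions of the form `(z - a) ^ k * G z` -/
lemma bdk {a : ℂ} {r : ℝ} (G : ℂ → ℂ) (hG : Continuous G) {M : ℝ} (hM : 0 ≤ M) (hr : 0 < r)
    (hb : ∀ z ∈ ball a r, ‖G z‖ ≤ M) (h0 : ∀ z, z ∉ ball a r → G z = 0) (k : ℕ) :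
    Bd (fun z => (z - a) ^ k * G z) a r (r ^ k * M) := by
  refine ⟨?_, by positivity, ?_, ?_⟩
  · exact (((continuous_id.sub continuous_const).pow k).mul hG).measurable
  · intro z
    by_cases hz : z ∈ ball a r
    · show ‖(z - a) ^ k * G z‖ ≤ r ^ k * M
      rw [norm_mul, norm_pow]
      have h1 : ‖z - a‖ ≤ r := by
        rw [mem_ball, dist_eq_norm] at hz
        exact hz.le
      exact mul_le_mul (pow_le_pow_left₀ (norm_nonneg _) h1 k) (hb z hz) (norm_nonneg _)
        (by positivity)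
    · show ‖(z - a) ^ k * G z‖ ≤ r ^ k * M
      rw [h0 z hz, mul_zero, norm_zero]
      positivity
  · intro z hz
    show (z - a) ^ k * G z = 0
    rw [h0 z hz, mul_zero]

/-- integrability of `conj x * (h * u)` -/
lemma integ {S : Type} [MeasurableSpace S] {μ : Measure S} {φ : S → ℂ} (hφ : Measurable φ)
    (x u : Lp ℂ 2 μ) (h : ℂ → ℂ) (hm : Measurable h) {M : ℝ} (hM : ∀ l, ‖h l‖ ≤ M) :
    Integrable (fun s => conj (x s) * (h (φ s) * u s)) μ := by
  have h1 : Integrable (fun s => ⟪x s, u s⟫_ℂ) μ := L2.integrable_inner x u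
  have h2 : Integrable (fun s => h (φ s) * ⟪x s, u s⟫_ℂ) μ :=
    h1.bdd_mul (hm.comp hφ).aestronglyMeasurable (Eventually.of_forall fun s => hM (φ s))
  refine h2.congr (Eventually.of_forall fun s => ?_)
  show h (φ s) * ⟪x s, u s⟫_ℂ = conj (x s) * (h (φ s) * u s)
  rw [RCLike.inner_apply]
  ring

theorem main (hHT : S_HT) (hCTG : S_CTG) (hMV : S_MV) (hPOM : S_POM) : S_VEC := by
  intro S _ μ _ φ N hN u v a r hr ψ hψ hψs C
  obtain ⟨hP1, hP2, hP3, -, hP5, -, hP7⟩ := hPOM
  obtain ⟨K₀, hK₀, hHT'⟩ := hHT r hr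
  have hψ1 : ContDiff ℝ 1 ψ := hψ.of_le (by exact_mod_cast le_top)
  have hψc : HasCompactSupport ψ :=
    Metric.isCompact_of_isClosed_isBounded (isClosed_tsupport ψ) (isBounded_ball.subset hψs)
  have hdψc : HasCompactSupport (db ψ) := HasCompactSupport.intro hψc fun z hz => hP7 ψ z hz
  obtain ⟨C₁, hC₁⟩ := hψc.exists_bound_of_continuous hψ1.continuous
  obtain ⟨C₂, hC₂⟩ := hdψc.exists_bound_of_continuous (hP5 ψ hψ1)
  have hC₁0 : 0 ≤ C₁ := (norm_nonneg _).trans (hC₁ 0)
  have hC₂0 : 0 ≤ C₂ := (norm_nonneg _).trans (hC₂ 0)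
  have hψ0 : ∀ z, z ∉ ball a r → ψ z = 0 := fun z hz =>
    image_eq_zero_of_notMem_tsupport fun h => hz (hψs h)
  have hdψ0 : ∀ z, z ∉ ball a r → db ψ z = 0 := fun z hz => hP7 ψ z fun h => hz (hψs h)
  refine ⟨(K₀ * (|C| * C₂) + Real.pi * (|C| * C₁)) * ‖u‖, ?_⟩
  intro q hq hqC
  have hqC' : ∀ z ∈ ball a r, ‖q z‖ ≤ |C| := fun z hz => (hqC z hz).trans (le_abs_self C)
  have hdq := hP5 q hq
  -- the three functions
  set g : ℂ → ℂ := fun z => q z * db ψ z with hg
  set e : ℂ → ℂ := fun z => ψ z * db q z with he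
  set χ : ℂ → ℂ := fun z => q z * ψ z with hχ
  have hgc : Continuous g := hq.continuous.mul (hP5 ψ hψ1)
  have hec : Continuous e := hψ1.continuous.mul hdq
  have hχc : ContDiff ℝ 1 χ := hq.mul hψ1
  have hes : HasCompactSupport e := hψc.mul_right
  obtain ⟨Me, hMe⟩ := hes.exists_bound_of_continuous hec
  have hMe0 : 0 ≤ Me := (norm_nonneg _).trans (hMe 0)
  have hg0 : ∀ z, z ∉ ball a r → g z = 0 := fun z hz => by simp only [hg, hdψ0 z hz, mul_zero]
  have he0 : ∀ z, z ∉ ball a r → e z = 0 := fun z hz => by simp only [he, hψ0 z hz, zero_mul]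
  have hχ0 : ∀ z, z ∉ ball a r → χ z = 0 := fun z hz => by simp only [hχ, hψ0 z hz, mul_zero]
  have hgb : ∀ z ∈ ball a r, ‖g z‖ ≤ |C| * C₂ := fun z hz => by
    simp only [hg, norm_mul]
    exact mul_le_mul (hqC' z hz) (hC₂ z) (norm_nonneg _) (abs_nonneg C)
  have hχb : ∀ z ∈ ball a r, ‖χ z‖ ≤ |C| * C₁ := fun z hz => by
    simp only [hχ, norm_mul]
    exact mul_le_mul (hqC' z hz) (hC₁ z) (norm_nonneg _) (abs_nonneg C)
  have Bg : ∀ k : ℕ, Bd (fun z => (z - a) ^ k * g z) a r (r ^ k * (|C| * C₂)) := fun k =>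
    bdk g hgc (by positivity) hr hgb hg0 k
  have Be : ∀ k : ℕ, Bd (fun z => (z - a) ^ k * e z) a r (r ^ k * Me) := fun k =>
    bdk e hec hMe0 hr (fun z _ => hMe z) he0 k
  have Bχ : ∀ k : ℕ, Bd (fun z => (z - a) ^ k * χ z) a r (r ^ k * (|C| * C₁)) := fun k =>
    bdk χ hχc.continuous (by positivity) hr hχb hχ0 k
  -- the product rule
  have hdb : ∀ (k : ℕ) (z : ℂ), db (fun z => (z - a) ^ k * χ z) z =
      (z - a) ^ k * g z + (z - a) ^ k * e z := by
    intro k z
    have hF : DifferentiableAt ℂ (fun z : ℂ => (z - a) ^ k) z := by fun_prop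
    rw [hP2 (fun z => (z - a) ^ k) χ z (hF.restrictScalars ℝ)
      (hχc.differentiable one_ne_zero z), hP3 _ z hF, zero_mul, zero_add]
    have h1 : db χ z = db q z * ψ z + q z * db ψ z :=
      hP2 q ψ z (hq.differentiable one_ne_zero z) (hψ1.differentiable one_ne_zero z)
    rw [h1]
    simp only [hg, he]
    ring
  -- the formula of Cauchy and Pompeiu
  have hkey : ∀ (k : ℕ) (l : ℂ), -(ht (fun z => (z - a) ^ k * e z) l) =
      ht (fun z => (z - a) ^ k * g z) l + Real.pi * ((l - a) ^ k * χ l) := by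
    intro k l
    have hc1 : ContDiff ℝ 1 (fun z : ℂ => (z - a) ^ k * χ z) :=
      ((contDiff_id.sub contDiff_const).pow k).mul hχc
    have hc2 : HasCompactSupport (fun z : ℂ => (z - a) ^ k * χ z) := by
      refine HasCompactSupport.intro hψc fun z hz => ?_
      show (z - a) ^ k * (q z * ψ z) = 0
      rw [image_eq_zero_of_notMem_tsupport hz, mul_zero, mul_zero]
    have h1 := hP1 _ hc1 hc2 l
    have h2 : ht (db (fun z => (z - a) ^ k * χ z)) l =
        ht (fun z => (z - a) ^ k * g z) l + ht (fun z => (z - a) ^ k * e z) l := by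
      unfold ht
      rw [← integral_add ((hHT' _ _ _ (Bg k)).2.2.1 l) ((hHT' _ _ _ (Be k)).2.2.1 l)]
      refine integral_congr_ae (Eventually.of_forall fun z => ?_)
      show db (fun z => (z - a) ^ k * χ z) z * (z - l)⁻¹ = _
      rw [hdb]
      ring
    rw [h2] at h1
    linear_combination -h1
  -- the functions `h k`
  set h : ℕ → ℂ → ℂ := fun k l => -(ht (fun z => (z - a) ^ k * e z) l) with hh
  have hhm : ∀ k, Measurable (h k) := fun k => (hHT' _ _ _ (Be k)).2.1.neg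
  have hhb : ∀ k l, ‖h k l‖ ≤ r ^ k * (K₀ * (|C| * C₂) + Real.pi * (|C| * C₁)) := by
    intro k l
    have h1 : h k l = ht (fun z => (z - a) ^ k * g z) l + Real.pi * ((l - a) ^ k * χ l) :=
      hkey k l
    have h2 := (hHT' _ _ _ (Bg k)).2.2.2.1 l
    have h3 := (Bχ k).bd l
    rw [h1]
    refine (norm_add_le _ _).trans ?_
    rw [norm_mul, Complex.norm_real, Real.norm_of_nonneg Real.pi_pos.le]
    have h4 := mul_le_mul_of_nonneg_left h3 Real.pi_pos.le
    calc ‖ht (fun z => (z - a) ^ k * g z) l‖ + Real.pi * ‖(l - a) ^ k * χ l‖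
        ≤ K₀ * (r ^ k * (|C| * C₂)) + Real.pi * (r ^ k * (|C| * C₁)) := add_le_add h2 h4
      _ = _ := by ring
  have hM0 : ∀ k : ℕ, 0 ≤ r ^ k * (K₀ * (|C| * C₂) + Real.pi * (|C| * C₁)) := fun k => by
    positivity
  have hMV' := fun k => hMV S μ φ N hN u (h k) _ (hhm k) (hM0 k) (fun s => hhb k (φ s))
  refine ⟨fun k => mv φ u (h k), ?_, ?_, ?_⟩
  · intro k
    refine (hMV' k).2.1.trans (le_of_eq ?_)
    ring
  · intro k
    have h1 : N (mv φ u (h k)) - a • mv φ u (h k) =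
        mv φ u (h (k + 1)) + (∫ z, (z - a) ^ k * e z) • u := by
      refine Lp.ext ?_
      filter_upwards [Lp.coeFn_sub (N (mv φ u (h k))) (a • mv φ u (h k)),
        Lp.coeFn_smul a (mv φ u (h k)), hN.eq (mv φ u (h k)), (hMV' k).1, (hMV' (k + 1)).1,
        Lp.coeFn_add (mv φ u (h (k + 1))) ((∫ z, (z - a) ^ k * e z) • u),
        Lp.coeFn_smul (∫ z, (z - a) ^ k * e z) u] with s e1 e2 e3 e4 e5 e6 e7
      rw [e1, Pi.sub_apply, e2, Pi.smul_apply, e3, e4, e6, Pi.add_apply, e5, e7, Pi.smul_apply,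
        smul_eq_mul, smul_eq_mul]
      have h2 := (hHT' _ _ _ (Be k)).2.2.2.2 a (φ s)
      have h3 : (fun z => (z - a) * ((z - a) ^ k * e z)) = fun z => (z - a) ^ (k + 1) * e z := by
        funext z
        ring
      rw [h3] at h2
      simp only [hh]
      rw [h2]
      ring
    have h2 : ⟪v, mv φ u (h k)⟫_ℂ = -∫ z, (z - a) ^ k * e z * ct φ v u z := by
      rw [(hMV' k).2.2.2 v, ← ((hCTG S μ φ hN.meas v u).2.2 a r _ _ (Be k)).2, ← integral_neg]
      refine integral_congr_ae (Eventually.of_forall fun s => ?_)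
      simp only [hh]
      ring
    have h3 : ∫ z in ball a r, (z - a) ^ k * ψ z * (ff φ u v z * db q z) =
        (∫ z, (z - a) ^ k * e z) - ∫ z, (z - a) ^ k * e z * ct φ v u z := by
      rw [← integral_sub (hHT' _ _ _ (Be k)).1 ((hCTG S μ φ hN.meas v u).2.2 a r _ _ (Be k)).1]
      rw [setIntegral_eq_integral_of_forall_compl_eq_zero]
      · refine integral_congr_ae (Eventually.of_forall fun z => ?_)
        simp only [he, ff]
        ring
      · intro z hz
        rw [hψ0 z hz]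
        ring
    have h4 : T1 N u v (mv φ u (h k)) = N (mv φ u (h k)) + ⟪v, mv φ u (h k)⟫_ℂ • u := by
      simp [T1]
    rw [h3, h4, h2]
    calc N (mv φ u (h k)) + (-∫ z, (z - a) ^ k * e z * ct φ v u z) • u - a • mv φ u (h k)
        = (N (mv φ u (h k)) - a • mv φ u (h k)) +
          (-∫ z, (z - a) ^ k * e z * ct φ v u z) • u := by abel
      _ = _ := by
        rw [h1, sub_eq_add_neg, add_smul]
        abel
  · intro x
    rw [(hMV' 0).2.2.2 x]
    have h1 : ∀ s, conj (x s) * (h 0 (φ s) * u s) =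
        conj (x s) * (ht (fun z => (z - a) ^ 0 * g z) (φ s) * u s) +
          Real.pi * (conj (x s) * (q (φ s) * ψ (φ s) * u s)) := by
      intro s
      have h2 : h 0 (φ s) = ht (fun z => (z - a) ^ 0 * g z) (φ s) +
        Real.pi * ((φ s - a) ^ 0 * χ (φ s)) := hkey 0 (φ s)
      rw [h2]
      simp only [hχ, pow_zero, one_mul]
      ring
    have i1 : Integrable
        (fun s => conj (x s) * (ht (fun z => (z - a) ^ 0 * g z) (φ s) * u s)) μ :=
      integ hN.meas x u _ (hHT' _ _ _ (Bg 0)).2.1 (hHT' _ _ _ (Bg 0)).2.2.2.1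
    have i2 : Integrable (fun s => conj (x s) * (q (φ s) * ψ (φ s) * u s)) μ := by
      have hb : ∀ l, ‖χ l‖ ≤ r ^ 0 * (|C| * C₁) := fun l => by
        have := (Bχ 0).bd l
        simpa only [pow_zero, one_mul] using this
      exact integ hN.meas x u χ hχc.continuous.measurable hb
    rw [integral_congr_ae (Eventually.of_forall h1), integral_add i1 (i2.const_mul _),
      integral_const_mul, ((hCTG S μ φ hN.meas x u).2.2 a r _ _ (Bg 0)).2]
    simp only [hg, pow_zero, one_mul]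

end Pool.Agent.Y914.RO.VEC
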